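import Mathlib

/-!
# The twisted conjugacy ratio of an endomorphism of a free group can be close to one
-/

set_option autoImplicit false

namespace Pool.Agent.Results.MP_dff590_al.PowerEndomorphisms

open Filter

/-- the ball of radius `n` in the word metric of `X`: products of at most `n` elements of
`X ∪ X⁻¹` -/
def ball {G : Type*} [Group G] (X : Set G) (n : ℕ) : Set G :=
  {g | ∃ l : List G, l.length ≤ n ∧ (∀ x ∈ l, x ∈ X ∨ x⁻¹ ∈ X) ∧ l.prod = g}

/-- `x` and `y` are `φ`-conjugate: `x = z y φ(z)⁻¹` for some `z` -/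
def TwConj {G : Type*} [Group G] (φ : G →* G) (x y : G) : Prop :=
  ∃ z : G, x = z * y * (φ z)⁻¹

/-- the set of `φ`-conjugacy classes that have a representative in the ball of radius `n` -/
def classes {G : Type*} [Group G] (X : Set G) (φ : G →* G) (n : ℕ) : Set (Set G) :=
  {C | ∃ x ∈ ball X n, C = {y | TwConj φ y x}}

/-- the twisted conjugacy ratio of `φ` with respect to `X` -/
noncomputable def tcr {G : Type*} [Group G] (X : Set G) (φ : G →* G) : ℝ :=
  limsup (fun n : ℕ => ((classes X φ n).ncard : ℝ) / ((ball X n).ncard : ℝ)) atTop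

section basic

variable {G : Type*} [Group G] (φ : G →* G)

lemma twConj_refl (x : G) : TwConj φ x x := ⟨1, by simp⟩

lemma twConj_symm {x y : G} (h : TwConj φ x y) : TwConj φ y x := by
  obtain ⟨z, rfl⟩ := h
  exact ⟨z⁻¹, by simp [mul_assoc]⟩

end basic

section free

variable {m : ℕ}

open FreeGroup

/-- a letter -/
abbrev Lt (m : ℕ) := Fin m × Bool

lemma isReduced_append {L₁ L₂ : List (Lt m)} (h₁ : IsReduced L₁) (h₂ : IsReduced L₂)
    (h : ∀ a ∈ L₁.getLast?, ∀ b ∈ L₂.head?, a.1 = b.1 → a.2 = b.2) : IsReduced (L₁ ++ L₂) := by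
  unfold FreeGroup.IsReduced at *
  rw [List.isChain_append]
  exact ⟨h₁, h₂, h⟩

lemma isReduced_invRev {L : List (Lt m)} (h : IsReduced L) : IsReduced (invRev L) := by
  rw [isReduced_iff_reduce_eq] at *
  rw [reduce_invRev, h]

lemma norm_mk_of_reduced {L : List (Lt m)} (h : IsReduced L) : (FreeGroup.mk L).norm = L.length := by
  unfold FreeGroup.norm
  rw [toWord_mk, h.reduce_eq]

/-- common suffix decomposition for reversed lists -/
lemma common_prefix (X Y : List (Lt m)) : ∃ S X0 Y0 : List (Lt m), X = S ++ X0 ∧ Y = S ++ Y0 ∧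
    ∀ a ∈ X0.head?, ∀ b ∈ Y0.head?, a ≠ b := by
  induction X generalizing Y with
  | nil => exact ⟨[], [], Y, rfl, rfl, by simp⟩
  | cons a X ih =>
    cases Y with
    | nil => exact ⟨[], a :: X, [], rfl, rfl, by simp⟩
    | cons b Y =>
      by_cases hab : a = b
      · subst hab
        obtain ⟨S, X0, Y0, h1, h2, h3⟩ := ih Y
        exact ⟨a :: S, X0, Y0, by simp [h1], by simp [h2], h3⟩
      · refine ⟨[], a :: X, b :: Y, rfl, rfl, ?_⟩
        intro c hc d hd
        simp only [List.head?_cons, Option.mem_some_iff] at hc hd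
        rw [← hc, ← hd]
        exact hab

lemma common_suffix (X Y : List (Lt m)) : ∃ S X0 Y0 : List (Lt m), X = X0 ++ S ∧ Y = Y0 ++ S ∧
    ∀ a ∈ X0.getLast?, ∀ b ∈ Y0.getLast?, a ≠ b := by
  obtain ⟨S, X0, Y0, h1, h2, h3⟩ := common_prefix X.reverse Y.reverse
  refine ⟨S.reverse, X0.reverse, Y0.reverse, ?_, ?_, ?_⟩
  · rw [← List.reverse_append, ← h1, List.reverse_reverse]
  · rw [← List.reverse_append, ← h2, List.reverse_reverse]
  · simpa using h3

lemma norm_mul_inv (x y : FreeGroup (Fin m)) : ∃ S X0 Y0 : List (Lt m), x.toWord = X0 ++ S ∧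
    y.toWord = Y0 ++ S ∧ (x * y⁻¹).norm = X0.length + Y0.length := by
  obtain ⟨S, X0, Y0, h1, h2, h3⟩ := common_suffix x.toWord y.toWord
  refine ⟨S, X0, Y0, h1, h2, ?_⟩
  have hx : x = FreeGroup.mk X0 * FreeGroup.mk S := by
    rw [FreeGroup.mul_mk, ← h1, mk_toWord]
  have hy : y = FreeGroup.mk Y0 * FreeGroup.mk S := by
    rw [FreeGroup.mul_mk, ← h2, mk_toWord]
  have hxy : x * y⁻¹ = FreeGroup.mk (X0 ++ invRev Y0) := by
    rw [hx, hy, ← FreeGroup.mul_mk, ← FreeGroup.inv_mk]
    group
  have hX : IsReduced (X0 ++ S) := h1 ▸ isReduced_toWord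
  have hY : IsReduced (Y0 ++ S) := h2 ▸ isReduced_toWord
  have hX0 : IsReduced X0 := List.IsChain.left_of_append hX
  have hY0 : IsReduced Y0 := List.IsChain.left_of_append hY
  rw [hxy, norm_mk_of_reduced, List.length_append, invRev_length]
  apply isReduced_append hX0 (isReduced_invRev hY0)
  intro a ha b hb hab
  have hb' : (b.1, !b.2) ∈ Y0.getLast? := by
    unfold invRev at hb
    rw [List.head?_reverse, List.getLast?_map] at hb
    simp only [Option.mem_def, Option.map_eq_some_iff] at hb
    obtain ⟨c, hc, rfl⟩ := hb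
    simpa using hc
  have h4 := h3 a ha _ hb'
  by_contra hne
  apply h4
  ext
  · simp [hab]
  · simp only
    cases h5 : a.2 <;> cases h6 : b.2 <;> simp_all

/-- the endomorphism raising every basis element to the power `k` -/
def pw (m k : ℕ) : FreeGroup (Fin m) →* FreeGroup (Fin m) :=
  FreeGroup.lift (fun i => (FreeGroup.of i) ^ k)

/-- repeat every letter `k` times -/
def rp (k : ℕ) (L : List (Lt m)) : List (Lt m) := L.flatMap (fun p => List.replicate k p)

lemma mk_replicate (k : ℕ) (p : Lt m) :
    FreeGroup.mk (List.replicate k p) = (FreeGroup.mk [p]) ^ k := by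
  induction k with
  | zero => rfl
  | succ k ih =>
    rw [List.replicate_succ', ← FreeGroup.mul_mk, ih, pow_succ]

lemma pw_mk (k : ℕ) (L : List (Lt m)) : pw m k (FreeGroup.mk L) = FreeGroup.mk (rp k L) := by
  induction L with
  | nil => simp [rp, FreeGroup.one_eq_mk.symm]
  | cons p L ih =>
    have h1 : FreeGroup.mk (p :: L) = FreeGroup.mk [p] * FreeGroup.mk L := by
      rw [FreeGroup.mul_mk]; rfl
    have h2 : rp k (p :: L) = List.replicate k p ++ rp k L := rfl
    rw [h1, _root_.map_mul, ih, h2, ← FreeGroup.mul_mk, mk_replicate]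
    congr 1
    rcases p with ⟨i, b⟩
    cases b
    · have : FreeGroup.mk [(i, false)] = (FreeGroup.of i)⁻¹ := by
        simp [FreeGroup.of, FreeGroup.inv_mk, invRev]
      rw [this, _root_.map_inv]
      simp [pw]
    · have : FreeGroup.mk [(i, true)] = FreeGroup.of i := rfl
      rw [this]
      simp [pw]

lemma rp_length (k : ℕ) (L : List (Lt m)) : (rp k L).length = k * L.length := by
  induction L with
  | nil => simp [rp]
  | cons p L ih =>
    have h2 : rp k (p :: L) = List.replicate k p ++ rp k L := rfl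
    rw [h2, List.length_append, ih, List.length_replicate, List.length_cons]
    ring

lemma rp_head (k : ℕ) (hk : 0 < k) (L : List (Lt m)) : (rp k L).head? = L.head? := by
  cases L with
  | nil => rfl
  | cons p L =>
    obtain ⟨k, rfl⟩ := Nat.exists_eq_succ_of_ne_zero hk.ne'
    rfl

lemma isReduced_replicate (k : ℕ) (p : Lt m) : IsReduced (List.replicate k p) := by
  unfold FreeGroup.IsReduced
  induction k with
  | zero => simp
  | succ k ih =>
    rw [List.replicate_succ, List.isChain_cons]
    refine ⟨?_, ih⟩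
    intro y hy
    cases k with
    | zero => simp at hy
    | succ k =>
      simp [List.replicate_succ] at hy
      simp [hy]

lemma rp_reduced (k : ℕ) (hk : 0 < k) (L : List (Lt m)) (h : IsReduced L) :
    IsReduced (rp k L) := by
  induction L with
  | nil => simp [rp]
  | cons p L ih =>
    have h2 : rp k (p :: L) = List.replicate k p ++ rp k L := rfl
    rw [h2]
    have h3 : IsReduced L := List.IsChain.tail h
    apply isReduced_append (isReduced_replicate k p) (ih h3)
    intro a ha b hb
    rw [rp_head k hk] at hb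
    have ha' : a = p := by
      have := List.mem_of_mem_getLast? ha
      exact List.eq_of_mem_replicate this
    subst ha'
    unfold FreeGroup.IsReduced at h
    rw [List.isChain_cons] at h
    exact h.1 b hb

lemma pw_toWord (k : ℕ) (hk : 0 < k) (z : FreeGroup (Fin m)) :
    (pw m k z).toWord = rp k z.toWord := by
  conv_lhs => rw [← mk_toWord (x := z)]
  rw [pw_mk, toWord_mk, (rp_reduced k hk _ isReduced_toWord).reduce_eq]

lemma pw_norm (k : ℕ) (hk : 0 < k) (z : FreeGroup (Fin m)) :
    (pw m k z).norm = k * z.norm := by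
  unfold FreeGroup.norm
  rw [pw_toWord k hk, rp_length]

lemma pw_injective (k : ℕ) (hk : 0 < k) : Function.Injective (pw m k) := by
  rw [injective_iff_map_eq_one]
  intro z hz
  have h := pw_norm k hk z
  rw [hz, FreeGroup.norm_one] at h
  rw [← FreeGroup.norm_eq_zero]
  rcases Nat.mul_eq_zero.mp h.symm with h | h
  · omega
  · exact h

/-- `x` does not end with the `j`-th power of a letter -/
def Good (j : ℕ) (x : FreeGroup (Fin m)) : Prop := ∀ p : Lt m, ¬ List.replicate j p <:+ x.toWord

lemma rp_suffix (k : ℕ) (L : List (Lt m)) (hL : L ≠ []) : ∃ p, List.replicate k p <:+ rp k L := by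
  obtain ⟨L', p, rfl⟩ := List.eq_nil_or_concat' L |>.resolve_left hL
  refine ⟨p, ?_⟩
  have : rp k (L' ++ [p]) = rp k L' ++ List.replicate k p := by
    simp [rp]
  rw [this]
  exact List.suffix_append _ _

lemma norm_lt (j k : ℕ) (hk : 2 * j ≤ k) (hj : 0 < j) (x z : FreeGroup (Fin m))
    (hx : Good j x) (hz : z ≠ 1) : x.norm < (z * x * (pw m k z)⁻¹).norm := by
  have hk0 : 0 < k := by omega
  obtain ⟨S, X0, Y0, h1, h2, h3⟩ := norm_mul_inv x (pw m k z)
  have hS : S.length < j := by
    by_contra hlt
    push Not at hlt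
    have hz' : z.toWord ≠ [] := by
      intro h
      exact hz (toWord_eq_nil_iff.mp h)
    obtain ⟨p, hp⟩ := rp_suffix k z.toWord hz'
    rw [← pw_toWord k hk0, h2] at hp
    have hjk : List.replicate j p <:+ List.replicate k p := by
      obtain ⟨d, hd⟩ := Nat.exists_eq_add_of_le (show j ≤ k by omega)
      refine ⟨List.replicate d p, ?_⟩
      rw [← List.replicate_add, hd, add_comm]
    have h4 : List.replicate j p <:+ Y0 ++ S := hjk.trans hp
    have h5 : List.replicate j p <:+ S := by
      apply List.suffix_of_suffix_length_le h4 (List.suffix_append _ _)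
      simpa using hlt
    exact hx p (h1 ▸ h5.trans (List.suffix_append _ _))
  have e1 : x.norm = X0.length + S.length := by
    unfold FreeGroup.norm
    rw [h1, List.length_append]
  have e2 : k * z.norm = Y0.length + S.length := by
    rw [← pw_norm k hk0]
    unfold FreeGroup.norm
    rw [h2, List.length_append]
  have e3 : (x * (pw m k z)⁻¹).norm ≤ z.norm + (z * x * (pw m k z)⁻¹).norm := by
    have : x * (pw m k z)⁻¹ = z⁻¹ * (z * x * (pw m k z)⁻¹) := by group
    calc (x * (pw m k z)⁻¹).norm = (z⁻¹ * (z * x * (pw m k z)⁻¹)).norm := by rw [← this]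
      _ ≤ z⁻¹.norm + _ := norm_mul_le _ _
      _ = _ := by rw [norm_inv_eq]
  have e4 : 0 < z.norm := by
    rw [Nat.pos_iff_ne_zero]
    intro h
    exact hz (FreeGroup.norm_eq_zero.mp h)
  obtain ⟨t, ht⟩ := Nat.exists_eq_add_of_le' e4
  have e5 : k * z.norm = k * t + k := by rw [ht]; ring
  have e6 : 2 * j * t ≤ k * t := Nat.mul_le_mul_right _ hk
  have e7 : t ≤ 2 * j * t := by nlinarith
  omega

/-! ### Balls -/

lemma ball_eq (n : ℕ) : ball (Set.range (FreeGroup.of : Fin m → FreeGroup (Fin m))) n =
    {g | g.norm ≤ n} := by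
  ext g
  constructor
  · rintro ⟨l, hl, hX, rfl⟩
    have : ∀ l : List (FreeGroup (Fin m)), (∀ x ∈ l, x ∈ Set.range (FreeGroup.of : Fin m → _) ∨
        x⁻¹ ∈ Set.range (FreeGroup.of : Fin m → _)) → l.prod.norm ≤ l.length := by
      intro l
      induction l with
      | nil => intro _; simp
      | cons a l ih =>
        intro h
        rw [List.prod_cons, List.length_cons]
        have h1 : a.norm = 1 := by
          rcases h a (by simp) with ⟨i, hi⟩ | ⟨i, hi⟩
          · rw [← hi]; exact norm_of i
          · rw [← norm_inv_eq, ← hi]; exact norm_of i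
        have h2 := ih (fun x hx => h x (by simp [hx]))
        have h3 := norm_mul_le a l.prod
        omega
    exact (this l hX).trans hl
  · intro hg
    refine ⟨g.toWord.map (fun p => FreeGroup.mk [p]), ?_, ?_, ?_⟩
    · rw [List.length_map]; exact hg
    · intro x hx
      rw [List.mem_map] at hx
      obtain ⟨⟨i, b⟩, _, rfl⟩ := hx
      cases b
      · right
        exact ⟨i, by simp [FreeGroup.of, FreeGroup.inv_mk, invRev]⟩
      · left
        exact ⟨i, rfl⟩
    · have : ∀ L : List (Lt m), (L.map (fun p => FreeGroup.mk [p])).prod = FreeGroup.mk L := by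
        intro L
        induction L with
        | nil => rfl
        | cons p L ih =>
          rw [List.map_cons, List.prod_cons, ih, FreeGroup.mul_mk]
          rfl
      rw [this, mk_toWord]

/-- the ball of radius `n` -/
def B (m n : ℕ) : Set (FreeGroup (Fin m)) := {g | g.norm ≤ n}

lemma B_finite (n : ℕ) : (B m n).Finite := by
  have h : (B m n) ⊆ (fun g : FreeGroup (Fin m) => g.toWord) ⁻¹' {l | l.length ≤ n} := by
    intro g hg
    exact hg
  apply Set.Finite.subset _ h
  apply Set.Finite.preimage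
  · exact toWord_injective.injOn
  · exact List.finite_length_le _ n

/-- a positive or negative word without cancellation after `x` -/
def ext (x : FreeGroup (Fin m)) (b : Bool) (w : List (Fin m)) : FreeGroup (Fin m) :=
  x * FreeGroup.mk (w.map (fun i => (i, b)))

lemma map_reduced (b : Bool) (w : List (Fin m)) : IsReduced (w.map (fun i => (i, b))) := by
  unfold FreeGroup.IsReduced
  induction w with
  | nil => simp
  | cons i w ih =>
    rw [List.map_cons, List.isChain_cons]
    refine ⟨?_, ih⟩
    intro y hy _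
    have := List.mem_of_mem_head? hy
    rw [List.mem_map] at this
    obtain ⟨j, _, rfl⟩ := this
    rfl

/-- the sign used after `x` -/
def sg (x : FreeGroup (Fin m)) : Bool := match x.toWord.getLast? with
  | none => true
  | some p => p.2

lemma ext_toWord (x : FreeGroup (Fin m)) (w : List (Fin m)) :
    (ext x (sg x) w).toWord = x.toWord ++ w.map (fun i => (i, sg x)) := by
  unfold ext
  conv_lhs => rw [← mk_toWord (x := x)]
  rw [FreeGroup.mul_mk, toWord_mk]
  rw [mk_toWord]
  apply IsReduced.reduce_eq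
  apply isReduced_append isReduced_toWord (map_reduced _ _)
  intro a ha b hb _
  have h1 : a.2 = sg x := by
    unfold sg
    rw [Option.mem_def] at ha
    rw [ha]
  have h2 : b.2 = sg x := by
    have := List.mem_of_mem_head? hb
    rw [List.mem_map] at this
    obtain ⟨i, _, rfl⟩ := this
    rfl
  rw [h1, h2]

lemma B_growth (hm : 2 ≤ m) (n j : ℕ) (hj : j ≤ n) :
    2 ^ j * (B m (n - j)).ncard ≤ (B m n).ncard := by
  classical
  have hinj : Function.Injective (fun (b : Bool) => if b then (⟨1, by omega⟩ : Fin m) else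
      ⟨0, by omega⟩) := by
    intro a b h
    cases a <;> cases b <;> simp_all
  let f : (Fin j → Bool) × FreeGroup (Fin m) → FreeGroup (Fin m) := fun p =>
    ext p.2 (sg p.2) (List.ofFn (fun i => if p.1 i then (⟨1, by omega⟩ : Fin m) else
      ⟨0, by omega⟩))
  have hf : Set.InjOn f ((Set.univ : Set (Fin j → Bool)) ×ˢ B m (n - j)) := by
    rintro ⟨a, x⟩ _ ⟨b, y⟩ _ h
    have h1 := congrArg toWord h
    simp only [f] at h1
    rw [ext_toWord, ext_toWord] at h1
    have hl := congrArg List.length h1
    simp only [List.length_append, List.length_map, List.length_ofFn] at hl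
    have h2 := List.append_inj h1 (by omega)
    have hxy : x = y := toWord_injective h2.1
    subst hxy
    have h3 := List.map_injective_iff.mpr (by
      intro i i' hi
      exact (Prod.ext_iff.mp hi).1 : Function.Injective (fun i : Fin m => (i, sg x))) h2.2
    have h4 := List.ofFn_injective h3
    have h5 : a = b := by
      funext i
      exact hinj (congrFun h4 i)
    rw [h5]
  have himg : f '' ((Set.univ : Set (Fin j → Bool)) ×ˢ B m (n - j)) ⊆ B m n := by
    rintro _ ⟨⟨a, x⟩, ⟨_, hx⟩, rfl⟩
    change (ext x (sg x) _).norm ≤ n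
    unfold FreeGroup.norm
    rw [ext_toWord]
    have hx' : x.toWord.length ≤ n - j := hx
    simp only [List.length_append, List.length_map, List.length_ofFn]
    omega
  have h6 := Set.ncard_le_ncard himg (B_finite n)
  rw [hf.ncard_image, Set.ncard_prod, Set.ncard_univ] at h6
  simpa using h6

lemma bad_card (n j : ℕ) (hj : j ≤ n) :
    {x ∈ B m n | ¬ Good j x}.ncard ≤ 2 * m * (B m (n - j)).ncard := by
  classical
  let f : Lt m × FreeGroup (Fin m) → FreeGroup (Fin m) := fun p =>
    p.2 * FreeGroup.mk (List.replicate j p.1)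
  have hsub : {x ∈ B m n | ¬ Good j x} ⊆ f '' ((Set.univ : Set (Lt m)) ×ˢ B m (n - j)) := by
    rintro x ⟨hx, hg⟩
    unfold Good at hg
    push Not at hg
    obtain ⟨p, L, hL⟩ := hg
    refine ⟨(p, FreeGroup.mk L), ⟨Set.mem_univ _, ?_⟩, ?_⟩
    · have h1 : (FreeGroup.mk L).norm ≤ L.length := norm_mk_le
      have h2 : x.toWord.length ≤ n := hx
      rw [← hL, List.length_append, List.length_replicate] at h2
      change (FreeGroup.mk L).norm ≤ n - j
      omega
    · change FreeGroup.mk L * FreeGroup.mk (List.replicate j p) = x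
      rw [FreeGroup.mul_mk, hL, mk_toWord]
  have hfin : ((Set.univ : Set (Lt m)) ×ˢ B m (n - j)).Finite :=
    Set.finite_univ.prod (B_finite _)
  calc {x ∈ B m n | ¬ Good j x}.ncard
      ≤ (f '' ((Set.univ : Set (Lt m)) ×ˢ B m (n - j))).ncard :=
        Set.ncard_le_ncard hsub (hfin.image _)
    _ ≤ ((Set.univ : Set (Lt m)) ×ˢ B m (n - j)).ncard := Set.ncard_image_le hfin
    _ = 2 * m * (B m (n - j)).ncard := by
      rw [Set.ncard_prod, Set.ncard_univ]
      rw [Nat.card_eq_fintype_card, Fintype.card_prod, Fintype.card_fin, Fintype.card_bool]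
      ring

lemma classes_finite {G : Type*} [Group G] (X : Set G) (φ : G →* G) (n : ℕ)
    (h : (ball X n).Finite) : (classes X φ n).Finite := by
  have : classes X φ n = (fun x => {y | TwConj φ y x}) '' ball X n := by
    ext C
    constructor
    · rintro ⟨x, hx, rfl⟩
      exact ⟨x, hx, rfl⟩
    · rintro ⟨x, hx, rfl⟩
      exact ⟨x, hx, rfl⟩
  rw [this]
  exact h.image _

lemma good_le_classes (n j k : ℕ) (hk : 2 * j ≤ k) (hj : 0 < j) :
    {x ∈ B m n | Good j x}.ncard ≤
      (classes (Set.range (FreeGroup.of : Fin m → FreeGroup (Fin m))) (pw m k) n).ncard := by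
  have hfin : (ball (Set.range (FreeGroup.of : Fin m → FreeGroup (Fin m))) n).Finite := by
    rw [ball_eq]
    exact B_finite n
  refine Set.ncard_le_ncard_of_injOn (fun x => {y | TwConj (pw m k) y x}) ?_ ?_
    (classes_finite _ _ _ hfin)
  · rintro x ⟨hx, _⟩
    refine ⟨x, ?_, rfl⟩
    rw [ball_eq]
    exact hx
  · rintro x ⟨_, hx⟩ y ⟨_, hy⟩ hxy
    have h1 : TwConj (pw m k) x y := by
      have : x ∈ {w | TwConj (pw m k) w x} := twConj_refl _ x
      simp only at hxy
      rw [hxy] at this
      exact this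
    obtain ⟨z, hz⟩ := h1
    by_cases hz1 : z = 1
    · subst hz1
      simpa using hz
    · exfalso
      have e1 := norm_lt j k hk hj y z hy hz1
      rw [← hz] at e1
      have e2 := norm_lt j k hk hj x z⁻¹ hx (inv_ne_one.mpr hz1)
      have e3 : z⁻¹ * x * (pw m k z⁻¹)⁻¹ = y := by
        rw [hz, _root_.map_inv]
        group
      rw [e3] at e2
      omega

lemma ratio_ge (hm : 2 ≤ m) (n j k : ℕ) (hk : 2 * j ≤ k) (hj : 0 < j) (hn : j ≤ n) :
    1 - 2 * m / (2 : ℝ) ^ j ≤
      ((classes (Set.range (FreeGroup.of : Fin m → FreeGroup (Fin m))) (pw m k) n).ncard : ℝ) /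
        ((ball (Set.range (FreeGroup.of : Fin m → FreeGroup (Fin m))) n).ncard : ℝ) := by
  have hB : ball (Set.range (FreeGroup.of : Fin m → FreeGroup (Fin m))) n = B m n := ball_eq n
  rw [hB]
  have h1 := good_le_classes (m := m) n j k hk hj
  have h2 := bad_card (m := m) n j hn
  have h3 := B_growth (m := m) hm n j hn
  have h4 : (B m n).ncard = {x ∈ B m n | Good j x}.ncard + {x ∈ B m n | ¬ Good j x}.ncard := by
    have hu : B m n = {x ∈ B m n | Good j x} ∪ {x ∈ B m n | ¬ Good j x} := by
      ext x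
      constructor
      · intro hx
        by_cases hg : Good j x
        · exact Or.inl ⟨hx, hg⟩
        · exact Or.inr ⟨hx, hg⟩
      · rintro (hx | hx)
        · exact hx.1
        · exact hx.1
    have hd : Disjoint {x ∈ B m n | Good j x} {x ∈ B m n | ¬ Good j x} := by
      rw [Set.disjoint_left]
      rintro x ⟨_, h⟩ ⟨_, h'⟩
      exact h' h
    conv_lhs => rw [hu]
    exact Set.ncard_union_eq hd ((B_finite n).subset (fun x hx => hx.1))
      ((B_finite n).subset (fun x hx => hx.1))
  have hpos : 0 < (B m n).ncard := by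
    rw [Set.ncard_pos (B_finite n)]
    exact ⟨1, by simp [B]⟩
  have hposr : (0 : ℝ) < ((B m n).ncard : ℝ) := by exact_mod_cast hpos
  rw [le_div_iff₀ hposr]
  have h1r : (({x ∈ B m n | Good j x}.ncard : ℕ) : ℝ) ≤
    ((classes (Set.range (FreeGroup.of : Fin m → FreeGroup (Fin m))) (pw m k) n).ncard : ℝ) := by
    exact_mod_cast h1
  have h2r : (({x ∈ B m n | ¬ Good j x}.ncard : ℕ) : ℝ) ≤ 2 * m * ((B m (n - j)).ncard : ℝ) := by
    exact_mod_cast h2
  have h3r : (2 : ℝ) ^ j * ((B m (n - j)).ncard : ℝ) ≤ ((B m n).ncard : ℝ) := by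
    exact_mod_cast h3
  have h4r : ((B m n).ncard : ℝ) = (({x ∈ B m n | Good j x}.ncard : ℕ) : ℝ) +
      (({x ∈ B m n | ¬ Good j x}.ncard : ℕ) : ℝ) := by exact_mod_cast h4
  have h2j : (0 : ℝ) < 2 ^ j := by positivity
  have h5 : ((B m (n - j)).ncard : ℝ) ≤ ((B m n).ncard : ℝ) / 2 ^ j := by
    rw [le_div_iff₀ h2j]
    linarith
  have h6 : 2 * (m : ℝ) * ((B m (n - j)).ncard : ℝ) ≤ 2 * m * (((B m n).ncard : ℝ) / 2 ^ j) :=
    mul_le_mul_of_nonneg_left h5 (by positivity)
  have h7 : 2 * (m : ℝ) * (((B m n).ncard : ℝ) / 2 ^ j) = 2 * m / 2 ^ j * ((B m n).ncard : ℝ) := by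
    ring
  linarith

lemma ratio_le_one {G : Type*} [Group G] (X : Set G) (φ : G →* G) (n : ℕ)
    (h : (ball X n).Finite) :
    ((classes X φ n).ncard : ℝ) / ((ball X n).ncard : ℝ) ≤ 1 := by
  have : classes X φ n = (fun x => {y | TwConj φ y x}) '' ball X n := by
    ext C
    constructor
    · rintro ⟨x, hx, rfl⟩
      exact ⟨x, hx, rfl⟩
    · rintro ⟨x, hx, rfl⟩
      exact ⟨x, hx, rfl⟩
  apply div_le_one_of_le₀
  · rw [this]
    exact_mod_cast Set.ncard_image_le h
  · positivity

end free

/-- For every `m ≥ 2` and every `ε > 0` there is an injective endomorphism `φ` of the free group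
of rank `m` whose twisted conjugacy ratio with respect to the basis is larger than `1 - ε`. -/
theorem result (m : ℕ) (hm : 2 ≤ m) (ε : ℝ) (hε : 0 < ε) :
    ∃ φ : FreeGroup (Fin m) →* FreeGroup (Fin m), Function.Injective φ ∧
      1 - ε < tcr (Set.range (FreeGroup.of : Fin m → FreeGroup (Fin m))) φ := by
  obtain ⟨j, hj⟩ : ∃ j : ℕ, 2 * m / (2 : ℝ) ^ j < ε := by
    have h := tendsto_pow_atTop_nhds_zero_of_lt_one (r := (1 / 2 : ℝ)) (by norm_num) (by norm_num)
    have h2 := h.const_mul (2 * (m : ℝ))
    rw [mul_zero] at h2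
    obtain ⟨j, hj⟩ := (h2.eventually (gt_mem_nhds hε)).exists
    refine ⟨j, ?_⟩
    have e : 2 * (m : ℝ) / 2 ^ j = 2 * m * (1 / 2) ^ j := by
      rw [one_div, inv_pow]
      ring
    rw [e]
    exact hj
  have hm' : (2 : ℝ) ≤ m := by exact_mod_cast hm
  have hj' : 2 * m / (2 : ℝ) ^ (j + 1) < ε := by
    have : 2 * m / (2 : ℝ) ^ (j + 1) ≤ 2 * m / (2 : ℝ) ^ j := by
      apply div_le_div_of_nonneg_left (by positivity) (by positivity)
      exact pow_le_pow_right₀ (by norm_num) (by omega)
    linarith
  refine ⟨pw m (2 * (j + 1)), pw_injective _ (by omega), ?_⟩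
  have h1 : 1 - 2 * m / (2 : ℝ) ^ (j + 1) ≤
      tcr (Set.range (FreeGroup.of : Fin m → FreeGroup (Fin m))) (pw m (2 * (j + 1))) := by
    unfold tcr
    apply le_limsup_of_frequently_le
    · apply Eventually.frequently
      filter_upwards [eventually_ge_atTop (j + 1)] with n hn
      exact ratio_ge hm n (j + 1) (2 * (j + 1)) le_rfl (by omega) hn
    · refine ⟨1, ?_⟩
      simp only [eventually_map]
      filter_upwards with n
      apply ratio_le_one
      rw [ball_eq]
      exact B_finite n
  linarith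

end Pool.Agent.Results.MP_dff590_al.PowerEndomorphisms
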